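import Mathlib

namespace Pool.Agent.Results.MP_ac307a_co.UpperSixth

open Finset

/-- An incompatibility system over G: for every vertex v a symmetric relation between distinct
edges of G that both contain v. Since G is simple, two distinct edges containing v meet exactly in v. -/
structure IncompatibilitySystem {V : Type} (G : SimpleGraph V) where
  rel : V → Sym2 V → Sym2 V → Prop
  symm : ∀ v e e', rel v e e' → rel v e' e
  left_mem : ∀ v e e', rel v e e' → e ∈ G.edgeSet ∧ v ∈ e
  right_mem : ∀ v e e', rel v e e' → e' ∈ G.edgeSet ∧ v ∈ e'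
  ne : ∀ v e e', rel v e e' → e ≠ e'

/-- Boundedness: for every vertex v and every edge e containing v, at most D other edges
containing v are incompatible with e. -/
def IncompatibilitySystem.Bounded {V : Type} {G : SimpleGraph V} (F : IncompatibilitySystem G)
    (D : ℝ) : Prop :=
  ∀ v, ∀ e ∈ G.edgeSet, v ∈ e → ({e' | F.rel v e e'}.ncard : ℝ) ≤ D

/-- G has a Hamilton cycle all of whose edges are pairwise compatible. -/
def HasCompatibleHamiltonCycle {V : Type} [DecidableEq V] {G : SimpleGraph V}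
    (F : IncompatibilitySystem G) : Prop :=
  ∃ (u : V) (p : G.Walk u u), p.IsHamiltonianCycle ∧
    ∀ e ∈ p.edges, ∀ e' ∈ p.edges, ∀ v, ¬ F.rel v e e'

/-- Dirac graph: at least three vertices, minimum degree at least half the number of vertices. -/
def IsDirac {V : Type} [Fintype V] (G : SimpleGraph V) : Prop :=
  3 ≤ Fintype.card V ∧ ∀ v, (Fintype.card V : ℝ) / 2 ≤ ((G.neighborSet v).ncard : ℝ)

/-- The property of mu in the definition of mu-star. -/
def Admissible (μ : ℝ) : Prop :=
  ∃ n₀ : ℕ, ∀ n ≥ n₀, ∀ (V : Type) [Fintype V] [DecidableEq V], Fintype.card V = n →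
    ∀ G : SimpleGraph V, IsDirac G → ∀ F : IncompatibilitySystem G, F.Bounded (μ * n) →
      HasCompatibleHamiltonCycle F

/-- mu-star of the problem. -/
noncomputable def muStar : ℝ := sSup {μ : ℝ | 0 < μ ∧ Admissible μ}

/-- Vertices: an independent part of size 2d - 1 and a part of size 4d. -/
abbrev W (d : ℕ) : Type := Fin (2 * d - 1) ⊕ (Bool × Bool × Fin d)

def adjB {d : ℕ} (x y : Bool × Bool × Fin d) : Prop :=
  (x.1 = y.1 ∧ x.2.1 ≠ y.2.1) ∨ (x.1 ≠ y.1 ∧ x.2.1 = y.2.1 ∧ x.2.2 = y.2.2)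

def adjW {d : ℕ} : W d → W d → Prop
  | Sum.inl _, Sum.inl _ => False
  | Sum.inl _, Sum.inr _ => True
  | Sum.inr _, Sum.inl _ => True
  | Sum.inr x, Sum.inr y => adjB x y

def GW (d : ℕ) : SimpleGraph (W d) where
  Adj := adjW
  symm := ⟨by
    rintro (i | x) (j | y) h
    · exact h
    · trivial
    · trivial
    · rcases h with ⟨h1, h2⟩ | ⟨h1, h2, h3⟩
      · exact Or.inl ⟨h1.symm, h2.symm⟩
      · exact Or.inr ⟨h1.symm, h2.symm, h3.symm⟩⟩
  loopless := ⟨by
    rintro (i | x) h
    · exact h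
    · rcases h with ⟨_, h2⟩ | ⟨h1, _⟩
      · exact h2 rfl
      · exact h1 rfl⟩

/-- an edge inside the large part -/
def inB {d : ℕ} (e : Sym2 (W d)) : Prop := ∀ x ∈ e, x.isRight = true

def FW (d : ℕ) : IncompatibilitySystem (GW d) where
  rel := fun v e e' => e ≠ e' ∧ (e ∈ (GW d).edgeSet ∧ v ∈ e ∧ inB e) ∧ (e' ∈ (GW d).edgeSet ∧ v ∈ e' ∧ inB e')
  symm := fun _ _ _ h => ⟨h.1.symm, h.2.2, h.2.1⟩
  left_mem := fun _ _ _ h => ⟨h.2.1.1, h.2.1.2.1⟩
  right_mem := fun _ _ _ h => ⟨h.2.2.1, h.2.2.2.1⟩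
  ne := fun _ _ _ h => h.1

/-- the neighbours of x inside the large part -/
def nbB {d : ℕ} (x : Bool × Bool × Fin d) : Finset (Bool × Bool × Fin d) :=
  insert (!x.1, x.2.1, x.2.2) (univ.image (fun i : Fin d => (x.1, !x.2.1, i)))

theorem mem_nbB {d : ℕ} (x y : Bool × Bool × Fin d) : y ∈ nbB x ↔ adjB x y := by
  obtain ⟨a, b, i⟩ := x
  obtain ⟨a', b', i'⟩ := y
  simp only [nbB, adjB, mem_insert, mem_image, mem_univ, true_and, Prod.mk.injEq]
  constructor
  · rintro (⟨h1, h2, h3⟩ | ⟨j, h1, h2, h3⟩)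
    · right; subst h1 h2 h3; simp
    · left; subst h1 h2; simp
  · rintro (⟨h1, h2⟩ | ⟨h1, h2, h3⟩)
    · right
      refine ⟨i', h1, ?_, rfl⟩
      cases b <;> cases b' <;> simp_all
    · left
      refine ⟨?_, h2.symm, h3.symm⟩
      cases a <;> cases a' <;> simp_all

theorem card_nbB {d : ℕ} (x : Bool × Bool × Fin d) : (nbB x).card = d + 1 := by
  obtain ⟨a, b, i⟩ := x
  unfold nbB
  rw [card_insert_of_notMem, card_image_of_injective]
  · simp
  · intro i j h; simpa using h
  · simp

theorem card_W (d : ℕ) (hd : 1 ≤ d) : Fintype.card (W d) = 6 * d - 1 := by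
  simp only [W, Fintype.card_sum, Fintype.card_fin, Fintype.card_prod, Fintype.card_bool]
  omega

theorem dirac_GW (d : ℕ) (hd : 1 ≤ d) : IsDirac (GW d) := by
  have hc := card_W d hd
  refine ⟨by omega, ?_⟩
  have key : ∀ v : W d, 3 * d ≤ ((GW d).neighborSet v).ncard := by
    rintro (i | x)
    · have h : (Sum.inr '' (Set.univ : Set (Bool × Bool × Fin d)) : Set (W d)) ⊆
          (GW d).neighborSet (Sum.inl i) := by
        rintro _ ⟨y, -, rfl⟩
        exact trivial
      have h2 := Set.ncard_le_ncard h (Set.toFinite _)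
      rw [Set.ncard_image_of_injective _ Sum.inr_injective, Set.ncard_univ,
        Nat.card_eq_fintype_card] at h2
      simp only [Fintype.card_prod, Fintype.card_bool, Fintype.card_fin] at h2
      omega
    · have h : (Sum.inl '' (Set.univ : Set (Fin (2 * d - 1))) ∪ Sum.inr '' (nbB x : Set _) : Set (W d)) ⊆
          (GW d).neighborSet (Sum.inr x) := by
        rintro _ (⟨y, -, rfl⟩ | ⟨y, hy, rfl⟩)
        · exact trivial
        · exact (mem_nbB x y).mp hy
      have h2 := Set.ncard_le_ncard h (Set.toFinite _)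
      rw [Set.ncard_union_eq, Set.ncard_image_of_injective _ Sum.inr_injective,
        Set.ncard_image_of_injective _ Sum.inl_injective, Set.ncard_univ,
        Nat.card_eq_fintype_card, Set.ncard_coe_finset, card_nbB] at h2
      · simp only [Fintype.card_fin] at h2
        omega
      · rw [Set.disjoint_left]
        rintro _ ⟨y, -, rfl⟩ ⟨z, -, hz⟩
        exact Sum.inr_ne_inl hz
  intro v
  have h1 : ((3 * d : ℕ) : ℝ) ≤ (((GW d).neighborSet v).ncard : ℝ) := by exact_mod_cast key v
  have h2 : (Fintype.card (W d) : ℝ) ≤ ((6 * d : ℕ) : ℝ) := by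
    exact_mod_cast (by omega : Fintype.card (W d) ≤ 6 * d)
  push_cast at h1 h2
  linarith

theorem bounded_FW (d : ℕ) (D : ℝ) (hD : (d : ℝ) ≤ D) : (FW d).Bounded D := by
  classical
  intro v e he hv
  refine le_trans ?_ hD
  norm_cast
  by_cases hne : ({e' | (FW d).rel v e e'} : Set _).Nonempty
  · obtain ⟨e1, h1⟩ := hne
    obtain ⟨-, ⟨he1, hv1, hB1⟩, -⟩ := h1
    -- v lies in the large part
    obtain ⟨x, rfl⟩ : ∃ x, v = Sum.inr x := by
      have := hB1 v hv1
      cases v with
      | inl i => simp at this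
      | inr x => exact ⟨x, rfl⟩
    set T : Finset (Sym2 (W d)) := (nbB x).image (fun y => s(Sum.inr x, Sum.inr y)) with hT
    have hmem : ∀ f : Sym2 (W d), f ∈ (GW d).edgeSet → (Sum.inr x : W d) ∈ f → inB f → f ∈ T := by
      intro f hf hxf hBf
      obtain ⟨z, rfl⟩ := Sym2.mem_iff_exists.mp hxf
      rw [SimpleGraph.mem_edgeSet] at hf
      cases z with
      | inl i =>
        have := hBf (Sum.inl i) (Sym2.mem_mk_right _ _)
        simp at this
      | inr y => exact mem_image.mpr ⟨y, (mem_nbB x y).mpr hf, rfl⟩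
    have hsub : {e' | (FW d).rel (Sum.inr x) e e'} ⊆ ((T.erase e : Finset _) : Set (Sym2 (W d))) := by
      intro f hf
      obtain ⟨h2, -, h3, h4, h5⟩ := hf
      exact mem_coe.mpr (mem_erase.mpr ⟨h2.symm, hmem f h3 h4 h5⟩)
    have h6 := Set.ncard_le_ncard hsub (finite_toSet _)
    rw [Set.ncard_coe_finset, card_erase_of_mem (hmem e he1 hv1 hB1)] at h6
    have h7 : T.card ≤ d + 1 := card_image_le.trans (by rw [card_nbB])
    omega
  · rw [Set.not_nonempty_iff_eq_empty] at hne
    rw [hne]; simp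

theorem no_cycle (d : ℕ) (hd : 1 ≤ d) : ¬ HasCompatibleHamiltonCycle (FW d) := by
  classical
  rintro ⟨u, p, hp, hcomp⟩
  have hdeg : ∀ v : W d, (p.toSubgraph.neighborSet v).ncard = 2 := fun v =>
    hp.isCycle.ncard_neighborSet_toSubgraph_eq_two (hp.mem_support v)
  let r : Fin (2 * d - 1) → (Bool × Bool × Fin d) → Prop := fun i x =>
    p.toSubgraph.Adj (Sum.inl i) (Sum.inr x)
  have h1 : ∀ i, (univ.filter (fun x => r i x)).card ≤ 2 := by
    intro i
    have hsub : (Sum.inr '' ((univ.filter (fun x => r i x) : Finset _) : Set (Bool × Bool × Fin d)) : Set (W d)) ⊆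
        p.toSubgraph.neighborSet (Sum.inl i) := by
      rintro _ ⟨x, hx, rfl⟩
      exact (mem_filter.mp (mem_coe.mp hx)).2
    have h2 := Set.ncard_le_ncard hsub (Set.toFinite _)
    rw [Set.ncard_image_of_injective _ Sum.inr_injective, Set.ncard_coe_finset, hdeg] at h2
    exact h2
  have h2 : ∀ x, 1 ≤ (univ.filter (fun i => r i x)).card := by
    intro x
    rw [Nat.one_le_iff_ne_zero, ← Nat.pos_iff_ne_zero, card_pos]
    by_contra hcon
    rw [not_nonempty_iff_eq_empty] at hcon
    have hno : ∀ i, ¬ r i x := by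
      intro i hi
      have : i ∈ univ.filter (fun i => r i x) := mem_filter.mpr ⟨mem_univ _, hi⟩
      rw [hcon] at this
      simp at this
    obtain ⟨y, z, hyz, hset⟩ := Set.ncard_eq_two.mp (hdeg (Sum.inr x))
    have hy : p.toSubgraph.Adj (Sum.inr x) y := by
      have : y ∈ p.toSubgraph.neighborSet (Sum.inr x) := by rw [hset]; simp
      exact this
    have hz : p.toSubgraph.Adj (Sum.inr x) z := by
      have : z ∈ p.toSubgraph.neighborSet (Sum.inr x) := by rw [hset]; simp
      exact this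
    have hR : ∀ w, p.toSubgraph.Adj (Sum.inr x) w → w.isRight = true := by
      rintro (i | w) hw
      · exact absurd hw.symm (hno i)
      · rfl
    have hE : ∀ w, p.toSubgraph.Adj (Sum.inr x) w → s(Sum.inr x, w) ∈ p.edges := by
      intro w hw
      exact p.mem_edges_toSubgraph.mp (SimpleGraph.Subgraph.mem_edgeSet.mpr hw)
    have hBB : ∀ w, p.toSubgraph.Adj (Sum.inr x) w → inB (s(Sum.inr x, w)) := by
      intro w hw t ht
      rcases Sym2.mem_iff.mp ht with rfl | rfl
      · rfl
      · exact hR _ hw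
    apply hcomp _ (hE y hy) _ (hE z hz) (Sum.inr x)
    refine ⟨?_, ⟨?_, Sym2.mem_mk_left _ _, hBB y hy⟩, ⟨?_, Sym2.mem_mk_left _ _, hBB z hz⟩⟩
    · intro h
      apply hyz
      rcases Sym2.eq_iff.mp h with ⟨_, h'⟩ | ⟨h', h''⟩
      · exact h'
      · rw [h'', ← h']
    · exact p.edges_subset_edgeSet (hE y hy)
    · exact p.edges_subset_edgeSet (hE z hz)
  have h3 := sum_card_bipartiteAbove_eq_sum_card_bipartiteBelow
    (s := (univ : Finset (Fin (2 * d - 1)))) (t := (univ : Finset (Bool × Bool × Fin d))) r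
  have h4 : ∑ a ∈ (univ : Finset (Fin (2 * d - 1))), (bipartiteAbove r univ a).card ≤ ∑ a ∈ (univ : Finset (Fin (2 * d - 1))), 2 :=
    sum_le_sum (fun a _ => h1 a)
  have h5 : ∑ b ∈ (univ : Finset (Bool × Bool × Fin d)), 1 ≤ ∑ b ∈ (univ : Finset (Bool × Bool × Fin d)), (bipartiteBelow r univ b).card :=
    sum_le_sum (fun b _ => h2 b)
  simp only [sum_const, card_univ, Fintype.card_fin, Fintype.card_prod, Fintype.card_bool,
    smul_eq_mul] at h4 h5
  omega

theorem not_admissible (μ : ℝ) (hμ : 1 / 6 < μ) : ¬ Admissible μ := by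
  rintro ⟨n₀, h⟩
  obtain ⟨d0, hd0⟩ := exists_nat_gt (μ / (6 * μ - 1))
  have hpos : 0 < 6 * μ - 1 := by linarith
  set d := max (max n₀ d0) 1 with hd
  have hd1 : 1 ≤ d := le_max_right _ _
  have hdn : n₀ ≤ d := (le_max_left _ _).trans (le_max_left _ _)
  have hdd : (d0 : ℝ) ≤ d := by exact_mod_cast (le_max_right _ _).trans (le_max_left _ _)
  have hc := card_W d hd1
  have hcast : ((6 * d - 1 : ℕ) : ℝ) = 6 * (d : ℝ) - 1 := by
    rw [Nat.cast_sub (by omega)]; push_cast; ring
  refine no_cycle d hd1 (h (6 * d - 1) (by omega) (W d) hc (GW d) (dirac_GW d hd1) (FW d)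
    (bounded_FW d _ ?_))
  rw [hcast]
  have h1 : μ < d0 * (6 * μ - 1) := by
    rwa [div_lt_iff₀ hpos] at hd0
  have h2 : (d0 : ℝ) * (6 * μ - 1) ≤ d * (6 * μ - 1) := by
    apply mul_le_mul_of_nonneg_right hdd hpos.le
  nlinarith

/-- The constant mu-star of the problem is at most 1/6, and no mu above 1/6 has the property in its
definition. -/
theorem result : (∀ μ : ℝ, 1 / 6 < μ → ¬ Admissible μ) ∧ muStar ≤ 1 / 6 := by
  refine ⟨not_admissible, ?_⟩
  apply Real.sSup_le
  · intro μ hμ
    by_contra hcon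
    exact not_admissible μ (by linarith) hμ.2
  · norm_num

end Pool.Agent.Results.MP_ac307a_co.UpperSixth
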